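import Pool.Agent.DPF.StmtsM

/-!
SPB: the last two squares if `lam - 1 < h / 2`.
-/

set_option autoImplicit false

namespace Pool.Agent.DPF.H76

open Finset Pool.Agent.DPS Pool.Agent.DPF

theorem wt_nonneg {L : ℕ} {δ : ℕ → ℝ} (h1 : ∀ i, δ i ≤ δ (i + 1)) (h2 : ∀ i, δ i ≤ 1) (i : ℕ) :
    0 ≤ wt L δ i := by
  unfold wt
  split_ifs
  · linarith [h2 i]
  · linarith [h1 i]

theorem spb (hWTS : WTSStmt) (hSTA : STAStmt) (hDEL : DELStmt) (hFAC : FACStmt) : SPBStmt := by
  intro k t L a M ht hL hk ha hM hcase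
  obtain ⟨hM0, hM1, hM2⟩ := hM
  obtain ⟨-, hd0, hd1, hd2, hd3⟩ := hDEL k t L ht hL hk
  obtain ⟨hf0, hf1, hf2, hf3⟩ := hFAC k t L ht hL hk
  have hL1 : 1 ≤ L := by omega
  have hLr : (0 : ℝ) < L := by exact_mod_cast hL1
  -- some size has mass
  obtain ⟨e₁, he₁⟩ : ∃ e, M e ≠ 0 := by
    by_contra hc
    push Not at hc
    have h0 : ∑ e ∈ range L, M e = 0 := Finset.sum_eq_zero fun e _ => hc e
    rw [h0] at hM2
    norm_num at hM2
  have hek : a + 1 < k := by
    obtain ⟨h1, -, -, h4⟩ := hM1 e₁ he₁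
    omega
  have hta : t ≤ a + 1 := by omega
  have hbig : L + t - 1 < 2 * (a + 1) := by omega
  obtain ⟨d, hd⟩ : ∃ d, d = dd t L (a + 1) := ⟨_, rfl⟩
  have hdd : d + (L + t) = 2 * a + 3 := by
    rw [hd]
    unfold dd
    omega
  have hddr : (d : ℝ) + (L + t) = 2 * a + 3 := by exact_mod_cast hdd
  have hdL : d + 1 ≤ L := by omega
  obtain ⟨σ, hσ⟩ : ∃ σ, σ = s0 k t L (a + 1) := ⟨_, rfl⟩
  have hσ0 : 0 < σ := by
    rw [hσ]
    exact hf0 (a + 1) hek
  have hb := hf2 (a + 1) hta (by omega) hek hbig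
  have hc := hf3 (a + 1) hta (by omega) hek
  rw [← hd, ← hσ] at hb hc
  have hden : (L : ℝ) - t + 1 + d = 2 * ((a : ℝ) + 2 - t) := by linarith
  have hnum : (L : ℝ) - t + 1 - 2 * ((L : ℝ) - a - 1) = d := by linarith
  rw [hden] at hb hc
  refine ⟨σ, hσ0.le, ?_, ?_⟩
  · intro e he
    obtain ⟨h1, h2, h3, h4⟩ := hM1 e he
    rw [hσ]
    exact hf1 (a + 1) e h1 h4
  rw [hnum]
  obtain ⟨X, hX⟩ : ∃ X, X = ∑ e ∈ range L, xe L a M e := ⟨_, rfl⟩
  rw [← hX]
  obtain ⟨Y, hY⟩ : ∃ Y, Y = (max (1 - X) 0) ^ 2 := ⟨_, rfl⟩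
  rw [← hY]
  have hY0 : 0 ≤ Y := by rw [hY]; positivity
  have haL : (a : ℝ) + 2 ≤ L := by exact_mod_cast ha
  have ha0 : (0 : ℝ) ≤ a := Nat.cast_nonneg a
  have hla : 0 ≤ ((L : ℝ) - a) / L := div_nonneg (by linarith) hLr.le
  have hxe : ∀ e, 0 ≤ xe L a M e := by
    intro e
    unfold xe
    by_cases hMe : M e = 0
    · rw [hMe, zero_mul]
    · obtain ⟨h1, -, -, -⟩ := hM1 e hMe
      have h1r : (a : ℝ) < e := by exact_mod_cast h1
      exact mul_nonneg (hM0 e) (div_nonneg (by linarith) (by linarith))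
  -- the states of the sizes with mass
  have hst1 : ∀ i, i < d → ∀ e, M e ≠ 0 → sta k t L i e = 1 := by
    intro i hi e he
    obtain ⟨h1, h2, h3, h4⟩ := hM1 e he
    obtain ⟨s1, s2, -⟩ := hSTA k t L i e hL1 h4
    rcases Nat.lt_or_ge (k + e) (L + t) with h5 | h5
    · exact s1 (by omega)
    · rw [s2 h5 (by omega), if_pos]
      unfold dd
      omega
  have hst2 : ∀ i e, M e ≠ 0 → sta k t L i e ≠ 0 := by
    intro i e he
    obtain ⟨h1, h2, h3, h4⟩ := hM1 e he
    obtain ⟨s1, s2, -⟩ := hSTA k t L i e hL1 h4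
    rcases Nat.lt_or_ge (k + e) (L + t) with h5 | h5
    · rw [s1 (by omega)]
      norm_num
    · rw [s2 h5 (by omega)]
      split_ifs <;> norm_num
  have hbr : ∀ i, (if i < d then σ else ((L : ℝ) - a) / L * (σ * Y)) ≤
      ((a : ℝ) / L * (σ * (max (1 - dA L (sta k t L i) M) 0) ^ 2) +
            ((L : ℝ) - a) / L * (σ * (max (1 - dB L a (sta k t L i) M) 0) ^ 2)) := by
    intro i
    split_ifs with hi
    · have hA : dA L (sta k t L i) M = 0 := by
        unfold dA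
        apply Finset.sum_eq_zero
        intro e _
        by_cases hMe : M e = 0
        · simp [hMe]
        · rw [if_pos (hst1 i hi e hMe)]
      have hB : dB L a (sta k t L i) M = 0 := by
        unfold dB
        apply Finset.sum_eq_zero
        intro e _
        by_cases hMe : M e = 0
        · simp [hMe, xe]
        · rw [hst1 i hi e hMe]
          simp
      rw [hA, hB, sub_zero, max_eq_left (by norm_num : (0 : ℝ) ≤ 1), one_pow, mul_one,
        ← add_mul, ← add_div]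
      have : ((a : ℝ) + (L - a)) / L = 1 := by
        rw [add_sub_cancel]
        exact div_self hLr.ne'
      rw [this, one_mul]
    · have h1 : 0 ≤ (a : ℝ) / L * (σ * (max (1 - dA L (sta k t L i) M) 0) ^ 2) := by positivity
      have hB : dB L a (sta k t L i) M ≤ X := by
        rw [hX]
        unfold dB
        apply Finset.sum_le_sum
        intro e _
        by_cases hMe : M e = 0
        · simp [hMe, xe]
        · rw [if_neg (hst2 i e hMe)]
          split_ifs
          · exact hxe e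
          · exact le_refl _
      have h2 : Y ≤ (max (1 - dB L a (sta k t L i) M) 0) ^ 2 := by
        rw [hY]
        apply pow_le_pow_left₀ (le_max_right _ _)
        exact max_le_max (by linarith) le_rfl
      have h3 : ((L : ℝ) - a) / L * (σ * Y) ≤
          ((L : ℝ) - a) / L * (σ * (max (1 - dB L a (sta k t L i) M) 0) ^ 2) :=
        mul_le_mul_of_nonneg_left (mul_le_mul_of_nonneg_left h2 hσ0.le) hla
      linarith
  have hsum : ∑ i ∈ range L, wt L (del k t L) i *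
      (if i < d then σ else ((L : ℝ) - a) / L * (σ * Y)) ≤
      ∑ i ∈ range L, wt L (del k t L) i *
          ((a : ℝ) / L * (σ * (max (1 - dA L (sta k t L i) M) 0) ^ 2) +
            ((L : ℝ) - a) / L * (σ * (max (1 - dB L a (sta k t L i) M) 0) ^ 2)) :=
    Finset.sum_le_sum fun i _ => mul_le_mul_of_nonneg_left (hbr i) (wt_nonneg hd1 hd3 i)
  refine le_trans ?_ hsum
  rw [hWTS L (del k t L) d σ (((L : ℝ) - a) / L * (σ * Y)) hdL hd0]
  have h4 : ((L : ℝ) - a) / L * (((t : ℝ) + 1) * ((L : ℝ) - t + 1) / (2 * ((a : ℝ) + 2 - t))) * Y ≤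
      ((L : ℝ) - a) / L * (σ * (1 - del k t L d)) * Y :=
    mul_le_mul_of_nonneg_right (mul_le_mul_of_nonneg_left hc hla) hY0
  calc ((t : ℝ) + 1) * d / (2 * ((a : ℝ) + 2 - t)) +
        ((L : ℝ) - a) / L * (((t : ℝ) + 1) * ((L : ℝ) - t + 1) / (2 * ((a : ℝ) + 2 - t))) * Y ≤
      σ * del k t L d + ((L : ℝ) - a) / L * (σ * (1 - del k t L d)) * Y := add_le_add hb h4
    _ = del k t L d * σ + (1 - del k t L d) * (((L : ℝ) - a) / L * (σ * Y)) := by ring

end Pool.Agent.DPF.H76
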